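import Pool.Agent.Lib.MP_df76ee_lc.Result

namespace Pool.Agent.Results.MP_df76ee_lc.MaxCliquePolyTime

open Pool.Agent.Lib.MP_df76ee_lc Turing

/-- There is a polynomial-time Turing machine which, given only the adjacency matrix of a graph
that is a visibility graph of some simple polygon, outputs a maximum clique of it. -/
theorem result :
    ∃ (f : Graph → List Bool) (M : TM2ComputableInPolyTime Graph.encode id f),
      (∀ k, Finite (M.tm.Γ k)) ∧
      ∀ I : Graph, I.IsVisibilityGraph →
        ∃ K : Finset (Fin I.n), I.G.IsMaximumClique K ∧ f I = I.vector K :=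
  maxClique_polytime

end Pool.Agent.Results.MP_df76ee_lc.MaxCliquePolyTime
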